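import Pool.Agent.helper17.MK.Spec
import Pool.Agent.helper32.RLS.ME

/-!
# Row mk:PM (MP_bf63dc_nt): partial summation over primes
-/

set_option autoImplicit false

namespace Pool.Agent.MK

open Finset Real

theorem PM_mem {w z : ℝ} (hz : 0 ≤ z) {p : ℕ} :
    p ∈ RLS.PP w z ↔ p.Prime ∧ w < (p : ℝ) ∧ (p : ℝ) ≤ z := by
  rw [RLS.PP, mem_filter, mem_range, Nat.lt_succ_iff, Nat.le_floor_iff hz]
  constructor
  · rintro ⟨h1, h2, h3⟩
    exact ⟨h2, h3, h1⟩
  · rintro ⟨h1, h2, h3⟩
    exact ⟨h3, h1, h2⟩

theorem PM_est : ∃ C : ℝ, 0 < C ∧ ∀ w z : ℝ, 2 ≤ w → w ≤ z →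
    |∑ p ∈ RLS.PP w z, 1 / (p : ℝ) - Real.log (Real.log z / Real.log w)| ≤ C / Real.log w := by
  obtain ⟨C₁, hC₁, hup⟩ := RLS.ME_nat_up
  obtain ⟨C₂, hC₂, hlo⟩ := Pool.Agent.helper22.PD.mertens_second
  refine ⟨2 * (C₁ + C₂ + 4), by linarith, ?_⟩
  intro w z hw hwz
  have hz : 2 ≤ z := hw.trans hwz
  set k : ℕ := ⌊w⌋₊ with hk
  set n : ℕ := ⌊z⌋₊ with hn
  have hk2 : 2 ≤ k := Nat.le_floor (by exact_mod_cast hw)
  have hkn : k ≤ n := Nat.floor_le_floor hwz
  have hn2 : 2 ≤ n := hk2.trans hkn
  have hkR : (2 : ℝ) ≤ (k : ℝ) := by exact_mod_cast hk2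
  have hnR : (2 : ℝ) ≤ (n : ℝ) := by exact_mod_cast hn2
  have hknR : (k : ℝ) ≤ (n : ℝ) := by exact_mod_cast hkn
  have hkw : (k : ℝ) ≤ w := Nat.floor_le (by linarith)
  have hwk : w ≤ (k : ℝ) + 1 := (Nat.lt_floor_add_one w).le
  have hnz : (n : ℝ) ≤ z := Nat.floor_le (by linarith)
  have hzn : z ≤ (n : ℝ) + 1 := (Nat.lt_floor_add_one z).le
  have hPP : RLS.PP w z = (Ioc k n).filter Nat.Prime := by
    ext p
    rw [RLS.PP, mem_filter, mem_filter, mem_range, mem_Ioc]
    have e1 : w < (p : ℝ) ↔ k < p := (Nat.floor_lt (by linarith)).symm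
    rw [e1]
    constructor
    · rintro ⟨a, b, d⟩
      exact ⟨⟨d, by omega⟩, b⟩
    · rintro ⟨⟨a, b⟩, d⟩
      exact ⟨by omega, d, a⟩
  have hlk : 0 < Real.log k := Real.log_pos (by linarith)
  have hln : 0 < Real.log n := Real.log_pos (by linarith)
  have hlw : 0 < Real.log w := Real.log_pos (by linarith)
  have hlz : 0 < Real.log z := Real.log_pos (by linarith)
  have hlkn : Real.log k ≤ Real.log n := Real.log_le_log (by linarith) hknR
  have hw2k : Real.log w ≤ 2 * Real.log k := by
    have h1 : w ≤ (k : ℝ) ^ 2 := by nlinarith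
    have h2 := Real.log_le_log (by linarith) h1
    rw [Real.log_pow] at h2
    exact_mod_cast h2
  have hik : 1 / Real.log k ≤ 2 / Real.log w := by
    rw [div_le_div_iff₀ hlk hlw]
    linarith
  have hin : 1 / Real.log n ≤ 2 / Real.log w := by
    refine le_trans ?_ hik
    exact one_div_le_one_div_of_le hlk hlkn
  obtain ⟨a1, a2⟩ := RLS.ME_loglog hkR hkw hwk
  obtain ⟨b1, b2⟩ := RLS.ME_loglog hnR hnz hzn
  have hR : Real.log (Real.log z / Real.log w) = Real.log (Real.log z) - Real.log (Real.log w) :=
    Real.log_div hlz.ne' hlw.ne'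
  have hu := hup k n hk2 hkn
  have hl := hlo k n hk2 hkn
  have hC1 : C₁ / Real.log k ≤ C₁ * (2 / Real.log w) := by
    rw [div_eq_mul_one_div]
    exact mul_le_mul_of_nonneg_left hik hC₁.le
  have hC2 : C₂ / Real.log k ≤ C₂ * (2 / Real.log w) := by
    rw [div_eq_mul_one_div]
    exact mul_le_mul_of_nonneg_left hik hC₂.le
  have hcw : 2 * (C₁ + C₂ + 4) / Real.log w =
      C₁ * (2 / Real.log w) + C₂ * (2 / Real.log w) + 4 * (2 / Real.log w) := by
    ring
  have h2w : 0 ≤ 2 / Real.log w := by positivity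
  have hC1' : 0 ≤ C₁ * (2 / Real.log w) := by positivity
  have hC2' : 0 ≤ C₂ * (2 / Real.log w) := by positivity
  rw [hPP, hcw, hR, abs_le]
  constructor <;> linarith

/-- the estimate for the primes below (and not equal to) `z` -/
theorem PM_est' (C : ℝ) (hC : ∀ w z : ℝ, 2 ≤ w → w ≤ z →
    |∑ p ∈ RLS.PP w z, 1 / (p : ℝ) - Real.log (Real.log z / Real.log w)| ≤ C / Real.log w)
    (w x z : ℝ) (hw : 2 ≤ w) (hwz : w ≤ z) (hzx : z ≤ x) :
    |∑ p ∈ (RLS.PP w x).filter (fun p : ℕ => (p : ℝ) < z), 1 / (p : ℝ) -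
      Real.log (Real.log z / Real.log w)| ≤ (C + 1) / Real.log w := by
  have hlw : 0 < Real.log w := Real.log_pos (by linarith)
  have h1 := hC w z hw hwz
  have h2 : ∑ p ∈ (RLS.PP w x).filter (fun p : ℕ => (p : ℝ) < z), 1 / (p : ℝ) ≤
      ∑ p ∈ RLS.PP w z, 1 / (p : ℝ) := by
    apply Finset.sum_le_sum_of_subset_of_nonneg
    · intro p hp
      rw [mem_filter, PM_mem (by linarith)] at hp
      rw [PM_mem (by linarith)]
      exact ⟨hp.1.1, hp.1.2.1, hp.2.le⟩
    · intro p _ _
      positivity
  have h3 : ∑ p ∈ RLS.PP w z, 1 / (p : ℝ) ≤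
      ∑ p ∈ (RLS.PP w x).filter (fun p : ℕ => (p : ℝ) < z), 1 / (p : ℝ) + 1 / Real.log w := by
    have h4 : RLS.PP w z ⊆ (RLS.PP w x).filter (fun p : ℕ => (p : ℝ) < z) ∪ {⌊z⌋₊} := by
      intro p hp
      rw [PM_mem (by linarith)] at hp
      rw [mem_union, mem_filter, PM_mem (by linarith), mem_singleton]
      rcases lt_or_eq_of_le hp.2.2 with h5 | h5
      · exact Or.inl ⟨⟨hp.1, hp.2.1, by linarith⟩, h5⟩
      · right
        rw [← h5, Nat.floor_natCast]
    have h5 : 1 / ((⌊z⌋₊ : ℕ) : ℝ) ≤ 1 / Real.log w := by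
      have h6 : w - 1 < (⌊z⌋₊ : ℕ) := by
        have := Nat.lt_floor_add_one z
        linarith
      have h7 := Real.log_le_sub_one_of_pos (show 0 < w by linarith)
      apply one_div_le_one_div_of_le hlw
      linarith
    refine le_trans (Finset.sum_le_sum_of_subset_of_nonneg h4 (fun p _ _ => by positivity)) ?_
    have h8 := Finset.sum_union_inter (s₁ := (RLS.PP w x).filter (fun p : ℕ => (p : ℝ) < z))
      (s₂ := {⌊z⌋₊}) (f := fun p : ℕ => 1 / (p : ℝ))
    have h9 : 0 ≤ ∑ p ∈ (RLS.PP w x).filter (fun p : ℕ => (p : ℝ) < z) ∩ {⌊z⌋₊}, 1 / (p : ℝ) :=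
      Finset.sum_nonneg (fun p _ => by positivity)
    rw [Finset.sum_singleton] at h8
    linarith
  have e1 : (C + 1) / Real.log w = C / Real.log w + 1 / Real.log w := by ring
  have e2 : 0 < 1 / Real.log w := by positivity
  rw [e1]
  rw [abs_le] at h1 ⊢
  constructor <;> linarith

theorem PM : PM_stmt := by
  obtain ⟨C, hC0, hC⟩ := PM_est
  refine ⟨2 * (C + 1), by linarith, ?_⟩
  intro w x hw hwx ψ hψ0 hψ
  have hlw : 0 < Real.log w := Real.log_pos (by linarith)
  have hlx : 0 < Real.log x := Real.log_pos (by linarith)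
  have hlwx : Real.log w ≤ Real.log x := Real.log_le_log (by linarith) hwx
  set b : ℝ := Real.log (Real.log x / Real.log w) with hb
  have hr1 : 1 ≤ Real.log x / Real.log w := by rwa [one_le_div hlw]
  have hb0 : 0 ≤ b := Real.log_nonneg hr1
  have heb : Real.exp b = Real.log x / Real.log w := by
    rw [hb, Real.exp_log (by positivity)]
  have hebw : Real.exp b * Real.log w = Real.log x := by
    rw [heb]; field_simp
  have hwlog : Real.log w ∈ Set.Icc (Real.log w) (Real.log x) := ⟨le_rfl, hlwx⟩
  have hψw : 0 ≤ ψ (Real.log w) := hψ0 _ hwlog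
  have hmem : ∀ p ∈ RLS.PP w x, p.Prime ∧ w < (p : ℝ) ∧ (p : ℝ) ≤ x ∧ 0 < (p : ℝ) ∧
      Real.log w < Real.log p ∧ Real.log p ≤ Real.log x := by
    intro p hp
    rw [PM_mem (by linarith)] at hp
    refine ⟨hp.1, hp.2.1, hp.2.2, by linarith [hp.2.1], Real.log_lt_log (by linarith) hp.2.1,
      Real.log_le_log (by linarith [hp.2.1]) hp.2.2⟩
  have hCw : 0 ≤ C / Real.log w := by positivity
  have hCw1 : 0 ≤ (C + 1) / Real.log w := by positivity
  constructor
  · -- lower bound
    have key := (RLS.PS_all (RLS.PP w x) (fun p => 1 / (p : ℝ))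
      (fun p => Real.log (Real.log x / Real.log p)) 0 b 1 ((C + 1) / Real.log w)
      (fun σ => ψ (Real.exp (-σ) * Real.log x)) hb0 zero_le_one hCw1 ?_ ?_ ?_ ?_ ?_).1 ?_
    · have e1 : ∫ s in (0 : ℝ)..b, ψ (Real.exp (-s) * Real.log x) =
          ∫ s in (0 : ℝ)..b, ψ (Real.exp s * Real.log w) := by
        have e2 := intervalIntegral.integral_comp_sub_left
          (fun s => ψ (Real.exp s * Real.log w)) (a := 0) (b := b) b
        rw [sub_self, sub_zero] at e2
        rw [← e2]
        apply intervalIntegral.integral_congr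
        intro s _
        simp only
        congr 1
        rw [sub_eq_add_neg, Real.exp_add, mul_comm (Real.exp b), mul_assoc, hebw]
      have e3 : Real.exp (-b) * Real.log x = Real.log w := by
        rw [← hebw, ← mul_assoc, ← Real.exp_add, neg_add_cancel, Real.exp_zero, one_mul]
      have e4 : ∑ p ∈ RLS.PP w x, 1 / (p : ℝ) *
          ψ (Real.exp (-Real.log (Real.log x / Real.log p)) * Real.log x) =
          ∑ p ∈ RLS.PP w x, 1 / (p : ℝ) * ψ (Real.log (p : ℝ)) := by
        apply Finset.sum_congr rfl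
        intro p hp
        obtain ⟨-, -, -, -, h5, -⟩ := hmem p hp
        have h6 : 0 < Real.log (p : ℝ) := hlw.trans h5
        rw [Real.exp_neg, Real.exp_log (by positivity)]
        congr 2
        field_simp
      rw [one_mul, e1, e4, e3] at key
      refine le_trans ?_ key
      have e5 : (C + 1) / Real.log w * ψ (Real.log w) ≤
          2 * (C + 1) / Real.log w * ψ (Real.log w) := by
        apply mul_le_mul_of_nonneg_right _ hψw
        rw [div_le_div_iff_of_pos_right hlw]
        linarith
      linarith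
    · intro p hp q hq hpq
      obtain ⟨-, -, -, hp0, h5, -⟩ := hmem p hp
      obtain ⟨-, -, -, hq0, h6, -⟩ := hmem q hq
      have h7 : 0 < Real.log (p : ℝ) := hlw.trans h5
      have h8 : 0 < Real.log (q : ℝ) := hlw.trans h6
      simp only at hpq
      have h9 := Real.log_injOn_pos (Set.mem_Ioi.2 (div_pos hlx h7))
        (Set.mem_Ioi.2 (div_pos hlx h8)) hpq
      have h10 : Real.log (p : ℝ) = Real.log q := by
        rw [div_eq_div_iff h7.ne' h8.ne'] at h9
        exact (mul_left_cancel₀ hlx.ne' h9).symm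
      exact_mod_cast Real.log_injOn_pos (Set.mem_Ioi.2 hp0) (Set.mem_Ioi.2 hq0) h10
    · intro p hp
      obtain ⟨-, -, -, hp0, h5, h6⟩ := hmem p hp
      have h7 : 0 < Real.log (p : ℝ) := hlw.trans h5
      refine ⟨by positivity, ?_, ?_⟩
      · apply Real.log_nonneg
        rwa [one_le_div h7]
      · rw [hb]
        apply Real.log_le_log (div_pos hlx h7)
        exact div_le_div_of_nonneg_left hlx.le hlw h5.le
    · intro σ hσ0 hσb
      set z : ℝ := Real.exp (Real.exp (-σ) * Real.log x) with hz
      have hlz : Real.log z = Real.exp (-σ) * Real.log x := by rw [hz, Real.log_exp]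
      have hzw : w ≤ z := by
        rw [← Real.exp_log (show 0 < w by linarith), hz, Real.exp_le_exp]
        rw [← hebw, ← mul_assoc, ← Real.exp_add]
        have : 1 ≤ Real.exp (-σ + b) := Real.one_le_exp (by linarith)
        nlinarith
      have hzx : z ≤ x := by
        rw [← Real.exp_log (show 0 < x by linarith), hz, Real.exp_le_exp]
        have : Real.exp (-σ) ≤ 1 := Real.exp_le_one_iff.2 (by linarith)
        nlinarith
      have h1 := PM_est' C hC w x z hw hzw hzx
      have h2 : (RLS.PP w x).filter (fun p : ℕ => (p : ℝ) < z) =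
          (RLS.PP w x).filter (fun p : ℕ => σ < Real.log (Real.log x / Real.log p)) := by
        apply Finset.filter_congr
        intro p hp
        obtain ⟨-, -, -, hp0, h5, h6⟩ := hmem p hp
        have h7 : 0 < Real.log (p : ℝ) := hlw.trans h5
        rw [← Real.log_lt_log_iff hp0 (Real.exp_pos _), hlz,
          Real.lt_log_iff_exp_lt (div_pos hlx h7), lt_div_iff₀ h7, Real.exp_neg]
        exact lt_inv_mul_iff₀ (Real.exp_pos σ)
      have h3 : Real.log (Real.log z / Real.log w) = 1 * (b - σ) := by
        rw [hlz, mul_div_assoc, Real.log_mul (Real.exp_pos _).ne' (by positivity), Real.log_exp,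
          one_mul, hb]
        ring
      rw [← h2, ← h3]
      exact h1
    · have h1 := hC w x hw hwx
      rw [sub_zero, one_mul]
      refine le_trans h1 ?_
      rw [div_le_div_iff_of_pos_right hlw]
      linarith
    · intro s hs
      apply hψ0
      constructor
      · rw [← hebw, ← mul_assoc, ← Real.exp_add]
        have : 1 ≤ Real.exp (-s + b) := Real.one_le_exp (by linarith [hs.2])
        nlinarith
      · have : Real.exp (-s) ≤ 1 := Real.exp_le_one_iff.2 (by linarith [hs.1])
        nlinarith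
    · intro s hs t ht hst
      apply hψ
      · constructor
        · rw [← hebw, ← mul_assoc, ← Real.exp_add]
          have : 1 ≤ Real.exp (-t + b) := Real.one_le_exp (by linarith [ht.2])
          nlinarith
        · have : Real.exp (-t) ≤ 1 := Real.exp_le_one_iff.2 (by linarith [ht.1])
          nlinarith
      · constructor
        · rw [← hebw, ← mul_assoc, ← Real.exp_add]
          have : 1 ≤ Real.exp (-s + b) := Real.one_le_exp (by linarith [hs.2])
          nlinarith
        · have : Real.exp (-s) ≤ 1 := Real.exp_le_one_iff.2 (by linarith [hs.1])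
          nlinarith
      · apply mul_le_mul_of_nonneg_right _ hlx.le
        exact Real.exp_le_exp.2 (by linarith)
  · -- upper bound
    have key := (RLS.PS_all (RLS.PP w x) (fun p => 1 / (p : ℝ))
      (fun p => Real.log (Real.log p / Real.log w)) 0 b 1 (C / Real.log w)
      (fun σ => ψ (Real.exp σ * Real.log w)) hb0 zero_le_one hCw ?_ ?_ ?_ ?_ ?_).2 ?_
    · have e4 : ∑ p ∈ RLS.PP w x, 1 / (p : ℝ) *
          ψ (Real.exp (Real.log (Real.log p / Real.log w)) * Real.log w) =
          ∑ p ∈ RLS.PP w x, 1 / (p : ℝ) * ψ (Real.log (p : ℝ)) := by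
        apply Finset.sum_congr rfl
        intro p hp
        obtain ⟨-, -, -, -, h5, -⟩ := hmem p hp
        have h6 : 0 < Real.log (p : ℝ) := hlw.trans h5
        rw [Real.exp_log (by positivity)]
        congr 2
        field_simp
      rw [one_mul, e4, Real.exp_zero, one_mul] at key
      refine le_trans key ?_
      have e5 : 2 * (C / Real.log w) * ψ (Real.log w) ≤
          2 * (C + 1) / Real.log w * ψ (Real.log w) := by
        apply mul_le_mul_of_nonneg_right _ hψw
        rw [← mul_div_assoc, div_le_div_iff_of_pos_right hlw]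
        linarith
      linarith
    · intro p hp q hq hpq
      obtain ⟨-, -, -, hp0, h5, -⟩ := hmem p hp
      obtain ⟨-, -, -, hq0, h6, -⟩ := hmem q hq
      have h7 : 0 < Real.log (p : ℝ) := hlw.trans h5
      have h8 : 0 < Real.log (q : ℝ) := hlw.trans h6
      simp only at hpq
      have h9 := Real.log_injOn_pos (Set.mem_Ioi.2 (div_pos h7 hlw))
        (Set.mem_Ioi.2 (div_pos h8 hlw)) hpq
      have h10 : Real.log (p : ℝ) = Real.log q := by
        rw [div_left_inj' hlw.ne'] at h9
        exact h9
      exact_mod_cast Real.log_injOn_pos (Set.mem_Ioi.2 hp0) (Set.mem_Ioi.2 hq0) h10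
    · intro p hp
      obtain ⟨-, -, -, hp0, h5, h6⟩ := hmem p hp
      have h7 : 0 < Real.log (p : ℝ) := hlw.trans h5
      refine ⟨by positivity, ?_, ?_⟩
      · apply Real.log_nonneg
        rw [one_le_div hlw]
        exact h5.le
      · rw [hb]
        apply Real.log_le_log (div_pos h7 hlw)
        rw [div_le_div_iff_of_pos_right hlw]
        exact h6
    · intro σ hσ0 hσb
      set z : ℝ := Real.exp (Real.exp σ * Real.log w) with hz
      have hlz : Real.log z = Real.exp σ * Real.log w := by rw [hz, Real.log_exp]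
      have hexp1 : 1 ≤ Real.exp σ := Real.one_le_exp hσ0
      have hzw : w ≤ z := by
        rw [← Real.exp_log (show 0 < w by linarith), hz, Real.exp_le_exp]
        nlinarith
      have hzx : z ≤ x := by
        rw [← Real.exp_log (show 0 < x by linarith), hz, Real.exp_le_exp, ← hebw]
        exact mul_le_mul_of_nonneg_right (Real.exp_le_exp.2 hσb) hlw.le
      have h1 := hC z x (by linarith) hzx
      have h2 : RLS.PP z x =
          (RLS.PP w x).filter (fun p : ℕ => σ < Real.log (Real.log p / Real.log w)) := by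
        ext p
        rw [mem_filter, PM_mem (by linarith), PM_mem (by linarith)]
        constructor
        · rintro ⟨h3, h4, h5⟩
          have hp0 : 0 < (p : ℝ) := by linarith [Real.exp_pos (Real.exp σ * Real.log w)]
          have h6 : Real.log z < Real.log p := Real.log_lt_log (Real.exp_pos _) h4
          have h7 : 0 < Real.log (p : ℝ) := by
            rw [hlz] at h6
            have : 0 < Real.exp σ * Real.log w := by positivity
            linarith
          refine ⟨⟨h3, by linarith, h5⟩, ?_⟩
          rw [Real.lt_log_iff_exp_lt (div_pos h7 hlw), lt_div_iff₀ hlw, ← hlz]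
          exact h6
        · rintro ⟨⟨h3, h4, h5⟩, h6⟩
          have hp0 : 0 < (p : ℝ) := by linarith
          have h7 : 0 < Real.log (p : ℝ) := Real.log_pos (by linarith)
          rw [Real.lt_log_iff_exp_lt (div_pos h7 hlw), lt_div_iff₀ hlw, ← hlz] at h6
          exact ⟨h3, (Real.log_lt_log_iff (Real.exp_pos _) hp0).1 h6, h5⟩
      have h3 : Real.log (Real.log x / Real.log z) = 1 * (b - σ) := by
        have h4 : Real.log x / Real.log z = (Real.log x / Real.log w) / Real.exp σ := by
          rw [hlz]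
          field_simp
        rw [h4, Real.log_div (by positivity) (Real.exp_pos _).ne', Real.log_exp, one_mul]
      rw [← h2, ← h3]
      refine le_trans h1 ?_
      apply div_le_div_of_nonneg_left hC0.le hlw
      exact Real.log_le_log (by linarith) hzw
    · have h1 := hC w x hw hwx
      rw [sub_zero, one_mul]
      exact h1
    · intro s hs
      apply hψ0
      constructor
      · have : 1 ≤ Real.exp s := Real.one_le_exp hs.1
        nlinarith
      · rw [← hebw]
        exact mul_le_mul_of_nonneg_right (Real.exp_le_exp.2 hs.2) hlw.le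
    · intro s hs t ht hst
      apply hψ
      · constructor
        · have : 1 ≤ Real.exp s := Real.one_le_exp hs.1
          nlinarith
        · rw [← hebw]
          exact mul_le_mul_of_nonneg_right (Real.exp_le_exp.2 hs.2) hlw.le
      · constructor
        · have : 1 ≤ Real.exp t := Real.one_le_exp ht.1
          nlinarith
        · rw [← hebw]
          exact mul_le_mul_of_nonneg_right (Real.exp_le_exp.2 ht.2) hlw.le
      · apply mul_le_mul_of_nonneg_right _ hlw.le
        exact Real.exp_le_exp.2 hst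

end Pool.Agent.MK
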